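import Pool.Agent.H109.Frac.Lower

open Finset

namespace Pool.Agent.H109.Frac

variable {r : ℕ}

/-- The distribution of `F x` for `x` with weight `w x`. -/
noncomputable def push {ι : Type} (I : Finset ι) (w : ι → ℝ) (F : ι → Finset (Fin r)) :
    Finset (Fin r) → ℝ := fun R => ∑ x ∈ I, if F x = R then w x else 0

theorem push_nonneg {ι : Type} {I : Finset ι} {w : ι → ℝ} {F : ι → Finset (Fin r)}
    (hw : ∀ x ∈ I, 0 ≤ w x) (R) : 0 ≤ push I w F R :=
  Finset.sum_nonneg fun x hx => by
    split_ifs
    · exact hw x hx
    · exact le_rfl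

theorem push_sum {ι : Type} (I : Finset ι) (w : ι → ℝ) (F : ι → Finset (Fin r)) :
    ∑ R, push I w F R = ∑ x ∈ I, w x := by
  unfold push
  rw [Finset.sum_comm]
  refine Finset.sum_congr rfl fun x _ => ?_
  rw [Finset.sum_ite_eq]
  simp

theorem push_marg {ι : Type} (I : Finset ι) (w : ι → ℝ) (F : ι → Finset (Fin r)) (i : Fin r) :
    marg (push I w F) i = ∑ x ∈ I, if i ∈ F x then w x else 0 := by
  unfold marg push
  rw [Finset.sum_comm]
  refine Finset.sum_congr rfl fun x _ => ?_
  rw [Finset.sum_ite_eq]
  simp

theorem push_ne {ι : Type} {I : Finset ι} {w : ι → ℝ} {F : ι → Finset (Fin r)} {R}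
    (h : push I w F R ≠ 0) : ∃ x ∈ I, F x = R := by
  by_contra hn
  push Not at hn
  exact h (Finset.sum_eq_zero fun x hx => if_neg (hn x hx))

/-- The size of the column `t`. -/
def sz (r j t : ℕ) : ℕ := r / j + if t < r % j then 1 else 0

theorem sz_sum (r j : ℕ) (hj : 1 ≤ j) : ∑ t ∈ range j, sz r j t = r := by
  unfold sz
  rw [Finset.sum_add_distrib, Finset.sum_const, card_range, smul_eq_mul, Finset.sum_boole]
  have : (range j).filter (fun t => t < r % j) = range (r % j) := by
    ext t
    simp only [Finset.mem_filter, Finset.mem_range]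
    have := Nat.mod_lt r hj
    omega
  rw [this, card_range]
  exact Nat.div_add_mod r j

theorem lt_sz {r j t p : ℕ} (ht : t < j) : p < sz r j t ↔ j * p + t < r := by
  unfold sz
  have h1 := Nat.div_add_mod r j
  have h2 := Nat.mod_lt r (by omega : j > 0)
  set q := r / j
  set c := r % j
  constructor
  · intro h
    rcases lt_or_ge p q with hpq | hpq
    · have : j * (p + 1) ≤ j * q := Nat.mul_le_mul_left j hpq
      rw [mul_add] at this
      omega
    · split_ifs at h with hc
      · have : p = q := by omega
        subst this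
        omega
      · omega
  · intro h
    rcases lt_or_ge p q with hpq | hpq
    · split_ifs <;> omega
    · have h3 : j * q ≤ j * p := Nat.mul_le_mul_left j hpq
      have h4 : p = q := by
        by_contra hne
        have : j * (q + 1) ≤ j * p := Nat.mul_le_mul_left j (by omega)
        rw [mul_add] at this
        omega
      subst h4
      rw [if_pos (by omega)]
      omega

theorem sz_mem {r j l t : ℕ} (ht : t < j) (h1 : j * l ≤ r) (h2 : r ≤ j * (l + 1)) :
    sz r j t = l ∨ sz r j t = l + 1 := by
  have a1 : ¬ (l + 1 < sz r j t) := by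
    rw [lt_sz ht]
    omega
  have a2 : l ≤ sz r j t := by
    rcases Nat.eq_zero_or_pos l with h | h
    · omega
    · have : l - 1 < sz r j t := by
        rw [lt_sz ht]
        have : j * (l - 1) + j = j * l := by
          rw [← Nat.mul_succ]
          congr 1
          omega
        omega
      omega
  omega

theorem count_mod (s w p : ℕ) (hs : 0 < s) (hp : p < s) :
    ((range (s * w)).filter fun x => x % s = p).card = w := by
  have h := Nat.count_modEq_card (s * w) hs p
  rw [Nat.count_eq_card_filter_range] at h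
  have h2 : (range (s * w)).filter (fun x => x ≡ p [MOD s]) =
      (range (s * w)).filter fun x => x % s = p := by
    refine Finset.filter_congr fun x _ => ?_
    unfold Nat.ModEq
    rw [Nat.mod_eq_of_lt hp]
  rw [h2] at h
  rw [h]
  simp [Nat.mul_div_cancel_left _ hs]

/-- The composition solution. -/
theorem exists_comp {r j l : ℕ} (hj : 1 ≤ j) (hl : 1 ≤ l) (h1 : j * l ≤ r) (h2 : r ≤ j * (l + 1))
    (hjl : j ≤ l * (l + 1)) :
    ∃ a b : Finset (Fin r) → ℝ, Feasible a b ∧ ∀ i, marg a i + marg b i =
      1 / j + 1 / l + 1 / (l + 1) - r / (j * l * (l + 1)) := by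
  classical
  set V : ℝ := 1 / j + 1 / l + 1 / (l + 1) - r / (j * l * (l + 1)) with hV
  set L := l * (l + 1) with hL
  have hLpos : 0 < L := by positivity
  have hjR : (0 : ℝ) < j := by exact_mod_cast hj
  have hlR : (0 : ℝ) < l := by exact_mod_cast hl
  have hszpos : ∀ t, t < j → 0 < sz r j t := by
    intro t ht
    rcases sz_mem ht h1 h2 with h | h <;> omega
  have hinv : ∀ t, t < j → (1 : ℝ) / (sz r j t : ℝ) = 1 / l - ((sz r j t : ℝ) - l) / (l * (l + 1)) := by
    intro t ht
    rcases sz_mem ht h1 h2 with h | h
    · rw [h]; simp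
    · rw [h]; push_cast; field_simp; ring
  set RA : ℕ → Finset (Fin r) := fun x =>
    univ.filter fun i : Fin r => x % sz r j ((i : ℕ) % j) = (i : ℕ) / j with hRA
  set CB : ℕ → Finset (Fin r) := fun t => univ.filter fun i : Fin r => (i : ℕ) % j = t with hCB
  set a := push (range L) (fun _ => (1 : ℝ) / L) RA with ha
  set b := push (range j) (fun t => V - 1 / (sz r j t : ℝ)) CB with hb
  have hLR : (0 : ℝ) < L := by exact_mod_cast hLpos
  have hbw : ∀ t ∈ range j, 0 ≤ V - 1 / (sz r j t : ℝ) := by
    intro t ht
    rw [Finset.mem_range] at ht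
    have hc : (r : ℝ) ≤ j * l + l * (l + 1) := by
      have : r ≤ j * l + l * (l + 1) := by
        have : j * (l + 1) = j * l + j := by ring
        omega
      exact_mod_cast this
    have hle : 1 / (sz r j t : ℝ) ≤ 1 / l := by
      refine one_div_le_one_div_of_le hlR ?_
      rcases sz_mem ht h1 h2 with h | h
      · rw [h]
      · rw [h]; push_cast; linarith
    have hV2 : 1 / (l : ℝ) ≤ V := by
      rw [hV]
      have : (r : ℝ) / (j * l * (l + 1)) ≤ 1 / j + 1 / (l + 1) := by
        rw [div_add_div _ _ hjR.ne' (by positivity), div_le_div_iff₀ (by positivity)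
          (by positivity)]
        nlinarith [mul_nonneg (mul_nonneg hjR.le (by positivity : (0 : ℝ) ≤ l + 1))
          (sub_nonneg.2 hc)]
      linarith
    linarith
  have hasum : ∑ R, a R = 1 := by
    rw [ha, push_sum, Finset.sum_const, card_range, nsmul_eq_mul, mul_one_div, div_self hLR.ne']
  have hbsum : ∑ R, b R = 1 := by
    rw [hb, push_sum, Finset.sum_sub_distrib, Finset.sum_const, card_range, nsmul_eq_mul]
    have : ∑ t ∈ range j, (1 : ℝ) / (sz r j t : ℝ) =
        j / l - ((r : ℝ) - j * l) / (l * (l + 1)) := by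
      rw [Finset.sum_congr rfl fun t ht => hinv t (Finset.mem_range.1 ht),
        Finset.sum_sub_distrib, Finset.sum_const, card_range, nsmul_eq_mul, ← Finset.sum_div,
        Finset.sum_sub_distrib, ← Nat.cast_sum, sz_sum r j hj, Finset.sum_const, card_range,
        nsmul_eq_mul]
      ring
    rw [this, hV]
    field_simp
    ring
  have hann : ∀ R, 0 ≤ a R := push_nonneg fun x _ => by positivity
  have hbnn : ∀ R, 0 ≤ b R := push_nonneg hbw
  refine ⟨a, b, ⟨hann, fun R => ?_, hbnn, fun R => ?_, hasum, hbsum, ?_⟩, ?_⟩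
  · rw [← hasum]
    exact Finset.single_le_sum (f := a) (fun R _ => hann R) (mem_univ R)
  · rw [← hbsum]
    exact Finset.single_le_sum (f := b) (fun R _ => hbnn R) (mem_univ R)
  · intro R S hRS
    by_contra hn
    push Not at hn
    obtain ⟨x, _, hx⟩ := push_ne hn.1
    obtain ⟨t, ht, ht'⟩ := push_ne hn.2
    rw [Finset.mem_range] at ht
    have hp : x % sz r j t < sz r j t := Nat.mod_lt _ (hszpos t ht)
    have hi := (lt_sz ht).1 hp
    have e1 : (j * (x % sz r j t) + t) % j = t := by
      rw [Nat.mul_add_mod, Nat.mod_eq_of_lt ht]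
    have e2 : (j * (x % sz r j t) + t) / j = x % sz r j t := by
      rw [Nat.mul_add_div hj, Nat.div_eq_of_lt ht, add_zero]
    refine (Finset.disjoint_left.1 hRS) (a := ⟨j * (x % sz r j t) + t, hi⟩) ?_ ?_
    · rw [← hx, hRA]
      simp only [Finset.mem_filter, Finset.mem_univ, true_and]
      rw [e1, e2]
    · rw [← ht', hCB]
      simp only [Finset.mem_filter, Finset.mem_univ, true_and]
      exact e1
  · intro i
    have hij : (i : ℕ) % j < j := Nat.mod_lt _ hj
    set s := sz r j ((i : ℕ) % j) with hs
    have hspos : 0 < s := hszpos _ hij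
    have hi : (i : ℕ) / j < s := by
      rw [hs, lt_sz hij, Nat.div_add_mod]
      exact i.2
    have m1 : marg a i = 1 / (s : ℝ) := by
      rw [ha, push_marg]
      have : ∀ x ∈ range L, (if i ∈ RA x then (1 : ℝ) / L else 0) =
          if x % s = (i : ℕ) / j then (1 : ℝ) / L else 0 := by
        intro x _
        rw [hRA]
        simp only [Finset.mem_filter, Finset.mem_univ, true_and]
        rfl
      rw [Finset.sum_congr rfl this, ← Finset.sum_filter, Finset.sum_const, nsmul_eq_mul]
      have hdvd : s ∣ L := by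
        rw [hL]
        rcases sz_mem hij h1 h2 with h | h
        · rw [hs, h]; exact Dvd.intro _ rfl
        · rw [hs, h]; exact Dvd.intro_left _ rfl
      obtain ⟨w, hw⟩ := hdvd
      rw [hw, count_mod s w _ hspos hi]
      have hsR : (s : ℝ) ≠ 0 := by positivity
      have hwR : (w : ℝ) ≠ 0 := by
        have : w ≠ 0 := by
          rintro rfl
          rw [mul_zero] at hw
          omega
        positivity
      push_cast
      field_simp
    have m2 : marg b i = V - 1 / (s : ℝ) := by
      rw [hb, push_marg]
      have : ∀ t ∈ range j, (if i ∈ CB t then V - 1 / (sz r j t : ℝ) else 0) =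
          if (i : ℕ) % j = t then V - 1 / (sz r j t : ℝ) else 0 := by
        intro t _
        rw [hCB]
        simp only [Finset.mem_filter, Finset.mem_univ, true_and]
      rw [Finset.sum_congr rfl this, Finset.sum_ite_eq, if_pos (Finset.mem_range.2 hij)]
    rw [m1, m2]
    ring

end Pool.Agent.H109.Frac
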