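import Mathlib

/-!
The colouring problem on `r` colours (optimal fractional colourings of bipartite graphs).
-/

open Finset

namespace Pool.Agent.H109.Frac

variable {r : ℕ}

/-- `a_i = ∑_{R ∋ i} a(R)`. -/
noncomputable def marg (a : Finset (Fin r) → ℝ) (i : Fin r) : ℝ :=
  ∑ R ∈ univ.filter (fun R : Finset (Fin r) => i ∈ R), a R

/-- Feasible pairs. -/
structure Feasible (a b : Finset (Fin r) → ℝ) : Prop where
  a_nonneg : ∀ R, 0 ≤ a R
  a_le_one : ∀ R, a R ≤ 1
  b_nonneg : ∀ R, 0 ≤ b R
  b_le_one : ∀ R, b R ≤ 1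
  a_sum : ∑ R, a R = 1
  b_sum : ∑ R, b R = 1
  meet : ∀ R S, Disjoint R S → a R = 0 ∨ b S = 0

/-- `m(a,b) = max_i (a_i + b_i)`. -/
noncomputable def value (a b : Finset (Fin r) → ℝ) : ℝ := ⨆ i, (marg a i + marg b i)

/-- Optimal solutions. -/
def Optimal (a b : Finset (Fin r) → ℝ) : Prop :=
  Feasible a b ∧ ∀ a' b' : Finset (Fin r) → ℝ, Feasible a' b' → value a b ≤ value a' b'

theorem le_value (a b : Finset (Fin r) → ℝ) (i : Fin r) : marg a i + marg b i ≤ value a b :=
  le_ciSup (Set.finite_range fun i => marg a i + marg b i).bddAbove i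

/-- Double counting. -/
theorem sum_marg (a : Finset (Fin r) → ℝ) : ∑ i, marg a i = ∑ R, a R * R.card := by
  unfold marg
  simp only [Finset.sum_filter]
  rw [Finset.sum_comm]
  refine Finset.sum_congr rfl fun R _ => ?_
  rw [← Finset.sum_filter, Finset.filter_mem_eq_inter, Finset.univ_inter, Finset.sum_const,
    nsmul_eq_mul, mul_comm]

theorem marg_nonneg {a : Finset (Fin r) → ℝ} (h : ∀ R, 0 ≤ a R) (i : Fin r) : 0 ≤ marg a i :=
  Finset.sum_nonneg fun R _ => h R

theorem le_marg {a : Finset (Fin r) → ℝ} (h : ∀ R, 0 ≤ a R) {i : Fin r} {R : Finset (Fin r)}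
    (hi : i ∈ R) : a R ≤ marg a i :=
  Finset.single_le_sum (f := a) (fun R _ => h R) (Finset.mem_filter.2 ⟨mem_univ R, hi⟩)

theorem Feasible.symm {a b : Finset (Fin r) → ℝ} (h : Feasible a b) : Feasible b a :=
  ⟨h.b_nonneg, h.b_le_one, h.a_nonneg, h.a_le_one, h.b_sum, h.a_sum, fun R S hRS =>
    (h.meet S R hRS.symm).symm⟩

/-- Every set in the support of `a` is large. -/
theorem one_lt {a b : Finset (Fin r) → ℝ} (h : Feasible a b) {m : ℝ}
    (hm : ∀ i, marg a i + marg b i ≤ m) {R : Finset (Fin r)} (hR : 0 < a R) :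
    1 < m * R.card := by
  -- `1 ≤ ∑_{i ∈ R} b_i`
  have h1 : ∑ i ∈ R, marg b i = ∑ S, b S * ((R ∩ S).card : ℝ) := by
    unfold marg
    simp only [Finset.sum_filter]
    rw [Finset.sum_comm]
    refine Finset.sum_congr rfl fun S _ => ?_
    rw [← Finset.sum_filter, Finset.filter_mem_eq_inter, Finset.sum_const, nsmul_eq_mul, mul_comm]
  have h2 : 1 ≤ ∑ i ∈ R, marg b i := by
    rw [h1, ← h.b_sum]
    refine Finset.sum_le_sum fun S _ => ?_
    by_cases hS : b S = 0
    · rw [hS]; simp
    · have : 1 ≤ (R ∩ S).card := by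
        rw [Nat.one_le_iff_ne_zero, Ne, Finset.card_eq_zero, ← Finset.disjoint_iff_inter_eq_empty]
        intro hd
        rcases h.meet R S hd with h0 | h0
        · exact absurd h0 hR.ne'
        · exact hS h0
      have h3 : (1 : ℝ) ≤ ((R ∩ S).card : ℝ) := by exact_mod_cast this
      calc b S = b S * 1 := (mul_one _).symm
        _ ≤ b S * ((R ∩ S).card : ℝ) := mul_le_mul_of_nonneg_left h3 (h.b_nonneg S)
  have hne : R.Nonempty := by
    rw [Finset.nonempty_iff_ne_empty]
    rintro rfl
    simp at h2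
    linarith
  calc (1 : ℝ) ≤ ∑ i ∈ R, marg b i := h2
    _ < ∑ i ∈ R, m := by
      refine Finset.sum_lt_sum_of_nonempty hne fun i hi => ?_
      have := le_marg h.a_nonneg hi
      have := hm i
      linarith
    _ = m * R.card := by rw [Finset.sum_const, nsmul_eq_mul, mul_comm]

/-- The weight `1 / (m |R| - 1)`. -/
noncomputable def phi (m : ℝ) (R : Finset (Fin r)) : ℝ := 1 / (m * R.card - 1)

/-- The expectation of `phi`. -/
noncomputable def ex (m : ℝ) (a : Finset (Fin r) → ℝ) : ℝ := ∑ R, a R * phi m R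

theorem exists_pos {a : Finset (Fin r) → ℝ} (h : ∀ R, 0 ≤ a R) (h1 : ∑ R, a R = 1) :
    ∃ R, 0 < a R := by
  by_contra hn
  push Not at hn
  have : ∑ R, a R = 0 := Finset.sum_eq_zero fun R _ => le_antisymm (hn R) (h R)
  linarith

theorem ex_pos {a b : Finset (Fin r) → ℝ} (h : Feasible a b) {m : ℝ}
    (hm : ∀ i, marg a i + marg b i ≤ m) : 0 < ex m a := by
  unfold ex
  obtain ⟨R, hR⟩ := exists_pos h.a_nonneg h.a_sum
  refine Finset.sum_pos' (fun S _ => ?_) ⟨R, mem_univ R, ?_⟩
  · rcases (h.a_nonneg S).eq_or_lt with h0 | h0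
    · rw [← h0]; simp
    · have := one_lt h hm h0
      unfold phi
      have : 0 < m * S.card - 1 := by linarith
      positivity
  · have := one_lt h hm hR
    unfold phi
    have : 0 < m * R.card - 1 := by linarith
    positivity

/-- The key inequality. -/
theorem key {a b : Finset (Fin r) → ℝ} (h : Feasible a b) {m : ℝ}
    (hm : ∀ i, marg a i + marg b i ≤ m)
    (hs : ∃ R S, 0 < a R ∧ 0 < b S ∧ 1 / m < ∑ i ∈ R ∩ S, 1 / (marg a i + marg b i)) :
    ex m a * ex m b < 1 := by
  have hU := ex_pos h hm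
  have hW : 0 < ex m b := ex_pos h.symm (fun i => by rw [add_comm]; exact hm i)
  set U := ex m a with hUdef
  set W := ex m b with hWdef
  set q : Finset (Fin r) → ℝ := fun R => phi m R with hq
  set p : Finset (Fin r) → ℝ := fun S => phi m S / W with hp
  have hmpos : 0 < m := by
    obtain ⟨R, hR⟩ := exists_pos h.a_nonneg h.a_sum
    have := one_lt h hm hR
    by_contra hn
    push Not at hn
    have : m * (R.card : ℝ) ≤ 0 := mul_nonpos_of_nonpos_of_nonneg hn (Nat.cast_nonneg _)
    linarith
  -- the double sum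
  set Z : ℝ := ∑ R, ∑ S, a R * b S * ∑ i ∈ R ∩ S, (p S ^ 2 / marg a i + q R ^ 2 / marg b i)
    with hZ
  have hZ1 : Z ≤ ∑ S, b S * p S ^ 2 * S.card + ∑ R, a R * q R ^ 2 * R.card := by
    have e1 : Z = ∑ i, ∑ R, ∑ S, (if i ∈ R ∩ S then
        a R * b S * (p S ^ 2 / marg a i + q R ^ 2 / marg b i) else 0) := by
      rw [hZ]
      have : ∀ R S : Finset (Fin r), a R * b S * ∑ i ∈ R ∩ S, (p S ^ 2 / marg a i +
          q R ^ 2 / marg b i) = ∑ i, (if i ∈ R ∩ S then
          a R * b S * (p S ^ 2 / marg a i + q R ^ 2 / marg b i) else 0) := by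
        intro R S
        rw [← Finset.sum_filter, Finset.filter_mem_eq_inter, Finset.univ_inter, Finset.mul_sum]
      simp only [this]
      rw [Finset.sum_comm]
      rw [Finset.sum_comm]
      simp_rw [Finset.sum_comm (s := (univ : Finset (Finset (Fin r)))) (t := (univ : Finset (Fin r)))]
    have e2 : ∀ i, ∑ R, ∑ S, (if i ∈ R ∩ S then
        a R * b S * (p S ^ 2 / marg a i + q R ^ 2 / marg b i) else 0) ≤
        (∑ S ∈ univ.filter (fun S : Finset (Fin r) => i ∈ S), b S * p S ^ 2) +
        ∑ R ∈ univ.filter (fun R : Finset (Fin r) => i ∈ R), a R * q R ^ 2 := by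
      intro i
      have e3 : ∑ R, ∑ S, (if i ∈ R ∩ S then
        a R * b S * (p S ^ 2 / marg a i + q R ^ 2 / marg b i) else 0) =
        (marg a i / marg a i) * (∑ S ∈ univ.filter (fun S : Finset (Fin r) => i ∈ S),
          b S * p S ^ 2) + (marg b i / marg b i) *
          ∑ R ∈ univ.filter (fun R : Finset (Fin r) => i ∈ R), a R * q R ^ 2 := by
        have e4 : (marg a i / marg a i) * (∑ S ∈ univ.filter (fun S : Finset (Fin r) => i ∈ S),
          b S * p S ^ 2) = ∑ R ∈ univ.filter (fun R : Finset (Fin r) => i ∈ R),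
            ∑ S ∈ univ.filter (fun S : Finset (Fin r) => i ∈ S),
              a R * b S * (p S ^ 2 / marg a i) := by
          rw [div_mul_eq_mul_div, div_eq_mul_inv]
          show (∑ R ∈ univ.filter (fun R : Finset (Fin r) => i ∈ R), a R) * _ * _ = _
          rw [Finset.sum_mul, Finset.sum_mul]
          refine Finset.sum_congr rfl fun R _ => ?_
          rw [Finset.mul_sum, Finset.sum_mul]
          refine Finset.sum_congr rfl fun S _ => ?_
          rw [div_eq_mul_inv]
          ring
        have e5 : (marg b i / marg b i) *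
          ∑ R ∈ univ.filter (fun R : Finset (Fin r) => i ∈ R), a R * q R ^ 2 =
            ∑ R ∈ univ.filter (fun R : Finset (Fin r) => i ∈ R),
            ∑ S ∈ univ.filter (fun S : Finset (Fin r) => i ∈ S),
              a R * b S * (q R ^ 2 / marg b i) := by
          rw [Finset.sum_comm, div_mul_eq_mul_div, div_eq_mul_inv]
          show (∑ S ∈ univ.filter (fun R : Finset (Fin r) => i ∈ R), b S) * _ * _ = _
          rw [Finset.sum_mul, Finset.sum_mul]
          refine Finset.sum_congr rfl fun R _ => ?_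
          rw [Finset.mul_sum, Finset.sum_mul]
          refine Finset.sum_congr rfl fun S _ => ?_
          rw [div_eq_mul_inv]
          ring
        rw [e4, e5, ← Finset.sum_add_distrib, Finset.sum_filter]
        refine Finset.sum_congr rfl fun R _ => ?_
        by_cases hR : i ∈ R
        · rw [if_pos hR, ← Finset.sum_add_distrib, Finset.sum_filter]
          refine Finset.sum_congr rfl fun S _ => ?_
          by_cases hS : i ∈ S
          · rw [if_pos hS, if_pos (Finset.mem_inter.2 ⟨hR, hS⟩)]
            ring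
          · rw [if_neg hS, if_neg (fun h => hS (Finset.mem_inter.1 h).2)]
        · rw [if_neg hR]
          refine Finset.sum_eq_zero fun S _ => ?_
          rw [if_neg (fun h => hR (Finset.mem_inter.1 h).1)]
      rw [e3]
      refine add_le_add ?_ ?_
      · have : 0 ≤ ∑ S ∈ univ.filter (fun S : Finset (Fin r) => i ∈ S), b S * p S ^ 2 :=
          Finset.sum_nonneg fun S _ => mul_nonneg (h.b_nonneg S) (sq_nonneg _)
        calc _ ≤ 1 * _ := mul_le_mul_of_nonneg_right (div_self_le_one _) this
          _ = _ := one_mul _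
      · have : 0 ≤ ∑ R ∈ univ.filter (fun R : Finset (Fin r) => i ∈ R), a R * q R ^ 2 :=
          Finset.sum_nonneg fun S _ => mul_nonneg (h.a_nonneg S) (sq_nonneg _)
        calc _ ≤ 1 * _ := mul_le_mul_of_nonneg_right (div_self_le_one _) this
          _ = _ := one_mul _
    rw [e1]
    refine (Finset.sum_le_sum fun i _ => e2 i).trans ?_
    rw [Finset.sum_add_distrib]
    have e6 := sum_marg (fun S => b S * p S ^ 2)
    have e7 := sum_marg (fun R => a R * q R ^ 2)
    unfold marg at e6 e7
    rw [e6, e7]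
  have hZ2 : 1 / m * (∑ R, ∑ S, a R * b S * (p S + q R) ^ 2) < Z := by
    rw [hZ, Finset.mul_sum]
    simp only [Finset.mul_sum]
    -- pointwise comparison
    have hpt : ∀ R S, 0 < a R → 0 < b S → ∀ i ∈ R ∩ S, (p S + q R) ^ 2 / (marg a i + marg b i) ≤
        p S ^ 2 / marg a i + q R ^ 2 / marg b i := by
      intro R S hR hS i hi
      rw [Finset.mem_inter] at hi
      have ha : 0 < marg a i := lt_of_lt_of_le hR (le_marg h.a_nonneg hi.1)
      have hb : 0 < marg b i := lt_of_lt_of_le hS (le_marg h.b_nonneg hi.2)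
      rw [div_add_div _ _ ha.ne' hb.ne', div_le_div_iff₀ (by positivity) (by positivity)]
      nlinarith [sq_nonneg (p S * marg b i - q R * marg a i)]
    have hpair : ∀ R S, 0 < a R → 0 < b S →
        (p S + q R) ^ 2 * ∑ i ∈ R ∩ S, 1 / (marg a i + marg b i) ≤
        ∑ i ∈ R ∩ S, (p S ^ 2 / marg a i + q R ^ 2 / marg b i) := by
      intro R S hR hS
      rw [Finset.mul_sum]
      refine Finset.sum_le_sum fun i hi => ?_
      rw [mul_one_div]
      exact hpt R S hR hS i hi
    have hone : ∀ R S, 0 < a R → 0 < b S → 1 / m ≤ ∑ i ∈ R ∩ S, 1 / (marg a i + marg b i) := by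
      intro R S hR hS
      have hne : (R ∩ S).Nonempty := by
        rw [Finset.nonempty_iff_ne_empty]
        intro h0
        rcases h.meet R S (Finset.disjoint_iff_inter_eq_empty.2 h0) with h1 | h1
        · exact hR.ne' h1
        · exact hS.ne' h1
      obtain ⟨i, hi⟩ := hne
      have hi' := Finset.mem_inter.1 hi
      have hpos : ∀ j ∈ R ∩ S, 0 < marg a j + marg b j := by
        intro j hj
        have := lt_of_lt_of_le hR (le_marg h.a_nonneg (Finset.mem_inter.1 hj).1)
        have := marg_nonneg h.b_nonneg j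
        linarith
      calc 1 / m ≤ 1 / (marg a i + marg b i) :=
            one_div_le_one_div_of_le (hpos i hi) (hm i)
        _ ≤ _ := Finset.single_le_sum (f := fun i => 1 / (marg a i + marg b i))
            (fun j hj => by have := hpos j hj; positivity) hi
    have hle : ∀ R S, 1 / m * (a R * b S * (p S + q R) ^ 2) ≤
        a R * b S * ∑ i ∈ R ∩ S, (p S ^ 2 / marg a i + q R ^ 2 / marg b i) := by
      intro R S
      rcases (h.a_nonneg R).eq_or_lt with h0 | hR
      · rw [← h0]; simp
      rcases (h.b_nonneg S).eq_or_lt with h0 | hS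
      · rw [← h0]; simp
      have h1 := hpair R S hR hS
      have h2 := hone R S hR hS
      have h3 : 1 / m * (p S + q R) ^ 2 ≤
          (p S + q R) ^ 2 * ∑ i ∈ R ∩ S, 1 / (marg a i + marg b i) := by
        rw [mul_comm]
        exact mul_le_mul_of_nonneg_left h2 (sq_nonneg _)
      calc 1 / m * (a R * b S * (p S + q R) ^ 2) = a R * b S * (1 / m * (p S + q R) ^ 2) := by ring
        _ ≤ _ := mul_le_mul_of_nonneg_left (h3.trans h1) (by positivity)
    obtain ⟨R₀, S₀, hR₀, hS₀, hlt⟩ := hs
    refine Finset.sum_lt_sum (fun R _ => Finset.sum_le_sum fun S _ => ?_)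
      ⟨R₀, mem_univ _, Finset.sum_lt_sum (fun S _ => ?_) ⟨S₀, mem_univ _, ?_⟩⟩
    · rw [← Finset.mul_sum]; exact hle R S
    · rw [← Finset.mul_sum]; exact hle R₀ S
    · rw [← Finset.mul_sum]
      have h1 := hpair R₀ S₀ hR₀ hS₀
      have hq0 : 0 < q R₀ := by
        have := one_lt h hm hR₀
        have : 0 < m * R₀.card - 1 := by linarith
        rw [hq]
        unfold phi
        positivity
      have hp0 : 0 < p S₀ := by
        have := one_lt h.symm (fun i => by rw [add_comm]; exact hm i) hS₀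
        have : 0 < m * S₀.card - 1 := by linarith
        rw [hp]
        unfold phi
        positivity
      have h3 : 1 / m * (p S₀ + q R₀) ^ 2 <
          (p S₀ + q R₀) ^ 2 * ∑ i ∈ R₀ ∩ S₀, 1 / (marg a i + marg b i) := by
        rw [mul_comm]
        exact mul_lt_mul_of_pos_left hlt (by positivity)
      calc 1 / m * (a R₀ * b S₀ * (p S₀ + q R₀) ^ 2) =
            a R₀ * b S₀ * (1 / m * (p S₀ + q R₀) ^ 2) := by ring
        _ < _ := mul_lt_mul_of_pos_left (lt_of_lt_of_le h3 h1) (by positivity)
  -- expansion of the square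
  have hexp : ∑ R, ∑ S, a R * b S * (p S + q R) ^ 2 =
      ∑ S, b S * p S ^ 2 + ∑ R, a R * q R ^ 2 + 2 * (∑ S, b S * p S) * ∑ R, a R * q R := by
    have e1 : ∀ R, ∑ S, a R * b S * (p S + q R) ^ 2 = a R * ∑ S, b S * p S ^ 2 +
        a R * q R ^ 2 + 2 * (∑ S, b S * p S) * (a R * q R) := by
      intro R
      have : ∀ S, a R * b S * (p S + q R) ^ 2 = a R * (b S * p S ^ 2) +
        a R * q R ^ 2 * b S + 2 * (b S * p S) * (a R * q R) := fun S => by ring
      simp only [this]
      rw [Finset.sum_add_distrib, Finset.sum_add_distrib, ← Finset.mul_sum, ← Finset.mul_sum,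
        h.b_sum, ← Finset.sum_mul, ← Finset.mul_sum]
      ring
    simp only [e1]
    rw [Finset.sum_add_distrib, Finset.sum_add_distrib, ← Finset.sum_mul, h.a_sum,
      ← Finset.mul_sum]
    ring
  have hmain : ∑ S, b S * p S ^ 2 + ∑ R, a R * q R ^ 2 + 2 * (∑ S, b S * p S) * ∑ R, a R * q R <
      m * (∑ S, b S * p S ^ 2 * S.card + ∑ R, a R * q R ^ 2 * R.card) := by
    rw [← hexp]
    have := lt_of_lt_of_le hZ2 hZ1
    rw [one_div, inv_mul_lt_iff₀ hmpos] at this
    exact this
  -- evaluate
  have f1 : m * ∑ S, b S * p S ^ 2 * S.card - ∑ S, b S * p S ^ 2 = 1 / W := by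
    have e1 : m * ∑ S, b S * p S ^ 2 * S.card - ∑ S, b S * p S ^ 2 =
        ∑ S, b S * phi m S * (1 / W ^ 2) := by
      rw [Finset.mul_sum, ← Finset.sum_sub_distrib]
      refine Finset.sum_congr rfl fun S _ => ?_
      rcases (h.b_nonneg S).eq_or_lt with h0 | hS
      · rw [← h0]; simp
      · have := one_lt h.symm (fun i => by rw [add_comm]; exact hm i) hS
        have h2 : m * S.card - 1 ≠ 0 := by
          have : 0 < m * S.card - 1 := by linarith
          exact this.ne'
        rw [hp]
        unfold phi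
        field_simp
    rw [e1, ← Finset.sum_mul]
    have : ∑ S, b S * phi m S = W := rfl
    rw [this]
    field_simp
  have f2 : m * ∑ R, a R * q R ^ 2 * R.card - ∑ R, a R * q R ^ 2 = U := by
    rw [hUdef]
    unfold ex
    rw [Finset.mul_sum, ← Finset.sum_sub_distrib]
    refine Finset.sum_congr rfl fun R _ => ?_
    rcases (h.a_nonneg R).eq_or_lt with h0 | hR
    · rw [← h0]; simp
    · have := one_lt h hm hR
      have h2 : m * R.card - 1 ≠ 0 := by
        have : 0 < m * R.card - 1 := by linarith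
        exact this.ne'
      rw [hq]
      unfold phi
      field_simp
  have f3 : ∑ S, b S * p S = 1 := by
    have e1 : ∑ S, b S * p S = (∑ S, b S * phi m S) / W := by
      rw [Finset.sum_div]
      exact Finset.sum_congr rfl fun S _ => by rw [hp]; ring
    rw [e1]
    exact div_self hW.ne'
  have f4 : ∑ R, a R * q R = U := rfl
  rw [f3, f4] at hmain
  have hfin : U < 1 / W := by linarith
  rwa [lt_div_iff₀ hW] at hfin

end Pool.Agent.H109.Frac
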