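import Pool.Agent.H109.Frac.Num

open Finset

namespace Pool.Agent.H109.Frac

variable {r : ℕ}

theorem m_pos {a b : Finset (Fin r) → ℝ} (h : Feasible a b) {m : ℝ}
    (hm : ∀ i, marg a i + marg b i ≤ m) : 0 < m := by
  obtain ⟨R, hR⟩ := exists_pos h.a_nonneg h.a_sum
  have := one_lt h hm hR
  by_contra hn
  push Not at hn
  have : m * (R.card : ℝ) ≤ 0 := mul_nonpos_of_nonpos_of_nonneg hn (Nat.cast_nonneg _)
  linarith

theorem mean_ge {a b : Finset (Fin r) → ℝ} (h : Feasible a b) {m : ℝ}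
    (hm : ∀ i, marg a i + marg b i ≤ m) :
    ((⌊1 / m⌋₊ + 1 : ℕ) : ℝ) ≤ ∑ R, a R * R.card := by
  have hmpos := m_pos h hm
  calc ((⌊1 / m⌋₊ + 1 : ℕ) : ℝ) = ∑ R, a R * ((⌊1 / m⌋₊ + 1 : ℕ) : ℝ) := by
        rw [← Finset.sum_mul, h.a_sum, one_mul]
    _ ≤ _ := by
        refine Finset.sum_le_sum fun R _ => ?_
        rcases (h.a_nonneg R).eq_or_lt with h0 | hR
        · rw [← h0]; simp
        · refine mul_le_mul_of_nonneg_left ?_ hR.le
          have h1 := one_lt h hm hR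
          have h2 : 1 / m < R.card := by
            rw [div_lt_iff₀ hmpos]
            linarith
          have h3 : ⌊1 / m⌋₊ < R.card := (Nat.floor_lt (by positivity)).2 h2
          exact_mod_cast h3

theorem floor_mean {a b : Finset (Fin r) → ℝ} (h : Feasible a b) {m : ℝ}
    (hm : ∀ i, marg a i + marg b i ≤ m) : 1 < m * (⌊∑ R, a R * R.card⌋₊ : ℕ) := by
  have hmpos := m_pos h hm
  have h1 := Nat.le_floor (mean_ge h hm)
  have h2 : ((⌊1 / m⌋₊ + 1 : ℕ) : ℝ) ≤ (⌊∑ R, a R * R.card⌋₊ : ℕ) := by exact_mod_cast h1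
  have h3 : 1 / m < ((⌊1 / m⌋₊ + 1 : ℕ) : ℝ) := by
    push_cast
    exact Nat.lt_floor_add_one _
  have h4 : 1 / m < (⌊∑ R, a R * R.card⌋₊ : ℕ) := lt_of_lt_of_le h3 h2
  rw [div_lt_iff₀ hmpos] at h4
  linarith

theorem mean_sum {a b : Finset (Fin r) → ℝ} {m : ℝ}
    (hm : ∀ i, marg a i + marg b i ≤ m) :
    ∑ R, a R * R.card + ∑ R, b R * R.card ≤ r * m := by
  rw [← sum_marg, ← sum_marg, ← Finset.sum_add_distrib]
  refine (Finset.sum_le_sum fun i _ => hm i).trans (le_of_eq ?_)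
  rw [Finset.sum_const, Finset.card_univ, Fintype.card_fin, nsmul_eq_mul]

/-- If `m k ≤ 1` then the means are at least `k + 1`. -/
theorem mean_ge' {a b : Finset (Fin r) → ℝ} (h : Feasible a b) {m : ℝ}
    (hm : ∀ i, marg a i + marg b i ≤ m) {k : ℕ} (hk : m * k ≤ 1) :
    (k : ℝ) + 1 ≤ ∑ R, a R * R.card := by
  have hmpos := m_pos h hm
  have h1 : (k : ℝ) ≤ 1 / m := by
    rw [le_div_iff₀ hmpos]; linarith
  have h2 : k ≤ ⌊1 / m⌋₊ := Nat.le_floor h1
  have h3 := mean_ge h hm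
  have h4 : ((k + 1 : ℕ) : ℝ) ≤ ((⌊1 / m⌋₊ + 1 : ℕ) : ℝ) := by exact_mod_cast Nat.succ_le_succ h2
  push_cast at h3 h4
  linarith

/-- The strictness condition is symmetric. -/
theorem strict_symm {a b : Finset (Fin r) → ℝ} {m : ℝ}
    (hs : ∃ R S, 0 < a R ∧ 0 < b S ∧ 1 / m < ∑ i ∈ R ∩ S, 1 / (marg a i + marg b i)) :
    ∃ R S, 0 < b R ∧ 0 < a S ∧ 1 / m < ∑ i ∈ R ∩ S, 1 / (marg b i + marg a i) := by
  obtain ⟨R, S, h1, h2, h3⟩ := hs
  refine ⟨S, R, h2, h1, ?_⟩
  rw [Finset.inter_comm]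
  simpa only [add_comm] using h3

theorem lowerA {a b : Finset (Fin r) → ℝ} (h : Feasible a b) {m : ℝ}
    (hm : ∀ i, marg a i + marg b i ≤ m)
    (hs : ∃ R S, 0 < a R ∧ 0 < b S ∧ 1 / m < ∑ i ∈ R ∩ S, 1 / (marg a i + marg b i))
    {k : ℕ} (hk1 : 1 ≤ k) (hr : r ≤ k * (k + 1)) :
    3 * (k : ℝ) ^ 2 + 2 * k - r < m * k ^ 2 * (k + 1) := by
  by_contra hV
  push Not at hV
  have hmpos := m_pos h hm
  have hkR : (1 : ℝ) ≤ k := by exact_mod_cast hk1
  have hm' : ∀ i, marg b i + marg a i ≤ m := fun i => by rw [add_comm]; exact hm i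
  have hsum := mean_sum hm
  have hk : 1 < m * k := by
    by_contra hn
    push Not at hn
    have h1 := mean_ge' h hm hn
    have h2 := mean_ge' h.symm hm' hn
    have hrR : (r : ℝ) ≤ k * (k + 1) := by exact_mod_cast hr
    have h3 : (r : ℝ) * m ≤ k * (k + 1) * m := mul_le_mul_of_nonneg_right hrR hmpos.le
    nlinarith
  rcases le_total (∑ R, a R * R.card) (∑ R, b R * R.card) with hle | hle
  · have h1 := caseA hmpos hk1 hr hk hV (floor_mean h hm) hsum hle (fun j hj => chord h hm j hj)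
      (fun j hj => chord h.symm hm' j hj)
    have h2 := key h hm hs
    linarith
  · have h1 := caseA hmpos hk1 hr hk hV (floor_mean h.symm hm') (by rw [add_comm]; exact hsum) hle
      (fun j hj => chord h.symm hm' j hj) (fun j hj => chord h hm j hj)
    have h2 := key h.symm hm' (strict_symm hs)
    linarith

theorem lowerB {a b : Finset (Fin r) → ℝ} (h : Feasible a b) {m : ℝ}
    (hm : ∀ i, marg a i + marg b i ≤ m)
    (hs : ∃ R S, 0 < a R ∧ 0 < b S ∧ 1 / m < ∑ i ∈ R ∩ S, 1 / (marg a i + marg b i))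
    {k : ℕ} (hk1 : 1 ≤ k) (hr : k * (k + 1) ≤ r) (hr2 : r < (k + 1) ^ 2) :
    3 * (k : ℝ) ^ 2 + 4 * k + 1 - r < m * k * (k + 1) ^ 2 := by
  by_contra hV
  push Not at hV
  have hmpos := m_pos h hm
  have hkR : (1 : ℝ) ≤ k := by exact_mod_cast hk1
  have hm' : ∀ i, marg b i + marg a i ≤ m := fun i => by rw [add_comm]; exact hm i
  have hsum := mean_sum hm
  have hk : 1 < m * k := by
    by_contra hn
    push Not at hn
    have h1 := mean_ge' h hm hn
    have h2 := mean_ge' h.symm hm' hn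
    have hrR : (r : ℝ) < (k + 1) ^ 2 := by exact_mod_cast hr2
    have h3 : (r : ℝ) * m < (k + 1) ^ 2 * m := mul_lt_mul_of_pos_right hrR hmpos
    have h4 : 2 * ((k : ℝ) + 1) < (k + 1) * ((k + 1) * m) := by nlinarith
    have h5 : 2 < ((k : ℝ) + 1) * m := by
      have : (0 : ℝ) < k + 1 := by positivity
      nlinarith
    nlinarith
  rcases le_total (∑ R, a R * R.card) (∑ R, b R * R.card) with hle | hle
  · have h1 := caseB hmpos hk1 hr hk hV (floor_mean h.symm hm') hsum hle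
      (fun j hj => chord h hm j hj) (fun j hj => chord h.symm hm' j hj)
    have h2 := key h hm hs
    linarith
  · have h1 := caseB hmpos hk1 hr hk hV (floor_mean h hm) (by rw [add_comm]; exact hsum) hle
      (fun j hj => chord h.symm hm' j hj) (fun j hj => chord h hm j hj)
    have h2 := key h.symm hm' (strict_symm hs)
    linarith

end Pool.Agent.H109.Frac
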