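import Pool.Agent.H109.Frac.Defs

open Finset

namespace Pool.Agent.H109.Frac

variable {r : ℕ}

/-- The chord inequality. -/
theorem chord {a b : Finset (Fin r) → ℝ} (h : Feasible a b) {m : ℝ}
    (hm : ∀ i, marg a i + marg b i ≤ m) (k : ℕ) (hk : 1 < m * k) :
    (2 * m * k + m - 1 - m * ∑ R, a R * R.card) / ((m * k - 1) * (m * k + m - 1)) ≤ ex m a := by
  have hmpos : 0 < m := by
    by_contra hn
    push Not at hn
    have : m * (k : ℝ) ≤ 0 := mul_nonpos_of_nonpos_of_nonneg hn (Nat.cast_nonneg _)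
    linarith
  have hD : 0 < (m * k - 1) * (m * k + m - 1) :=
    mul_pos (by linarith) (by linarith)
  have h1 : (2 * m * k + m - 1 - m * ∑ R, a R * R.card) / ((m * k - 1) * (m * k + m - 1)) =
      ∑ R, a R * ((2 * m * k + m - 1 - m * R.card) / ((m * k - 1) * (m * k + m - 1))) := by
    have : ∀ R : Finset (Fin r), a R * ((2 * m * k + m - 1 - m * R.card) /
        ((m * k - 1) * (m * k + m - 1))) =
        ((2 * m * k + m - 1) * a R - m * (a R * R.card)) / ((m * k - 1) * (m * k + m - 1)) :=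
      fun R => by ring
    simp only [this]
    rw [← Finset.sum_div, Finset.sum_sub_distrib, ← Finset.mul_sum, ← Finset.mul_sum, h.a_sum,
      mul_one]
  rw [h1]
  unfold ex
  refine Finset.sum_le_sum fun R _ => ?_
  rcases (h.a_nonneg R).eq_or_lt with h0 | hR
  · rw [← h0]; simp
  refine mul_le_mul_of_nonneg_left ?_ hR.le
  have h2 := one_lt h hm hR
  unfold phi
  rw [div_le_div_iff₀ hD (by linarith)]
  -- `(|R| - k) (|R| - k - 1) ≥ 0`
  have h3 : (0 : ℝ) ≤ ((R.card : ℝ) - k) * ((R.card : ℝ) - k - 1) := by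
    rcases le_or_gt R.card k with hle | hlt
    · have : (R.card : ℝ) ≤ k := by exact_mod_cast hle
      nlinarith
    · have : (k : ℝ) + 1 ≤ R.card := by exact_mod_cast hlt
      nlinarith
  nlinarith [mul_nonneg (sq_nonneg m) h3]

/-- The interpolation step. -/
theorem interp {m s t U W : ℝ} {j k : ℕ} {ρ : ℝ} (hm : 0 < m) (hk : 1 < m * k) (hj : 1 < m * j)
    (hjs : (j : ℝ) ≤ s) (hsj : s ≤ j + 1) (hst : s + t ≤ ρ * m)
    (hU : (2 * m * j + m - 1 - m * s) / ((m * j - 1) * (m * j + m - 1)) ≤ U)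
    (hW : (2 * m * k + m - 1 - m * t) / ((m * k - 1) * (m * k + m - 1)) ≤ W)
    (h1 : 0 ≤ (k : ℝ) ^ 2 + k - ρ + j * (2 * k + 1 - m * k * (k + 1)))
    (h2 : 0 ≤ (k : ℝ) ^ 2 + k - ρ + (j + 1) * (2 * k + 1 - m * k * (k + 1))) :
    1 ≤ U * W := by
  set θ := s - j with hθ
  have hθ0 : 0 ≤ θ := by linarith
  have hθ1 : 0 ≤ 1 - θ := by linarith
  have hD : 0 < (m * k - 1) * (m * k + m - 1) := mul_pos (by linarith) (by linarith)
  have hDj : 0 < (m * j - 1) * (m * j + m - 1) := mul_pos (by linarith) (by linarith)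
  set D := (m * k - 1) * (m * k + m - 1) with hDdef
  have y1 : (m * j - 1) * D ≤ 2 * m * k + m - 1 - ρ * m ^ 2 + m * j := by
    have : 2 * m * k + m - 1 - ρ * m ^ 2 + m * j - (m * j - 1) * D =
        m ^ 2 * ((k : ℝ) ^ 2 + k - ρ + j * (2 * k + 1 - m * k * (k + 1))) := by
      rw [hDdef]; ring
    nlinarith [mul_nonneg (sq_nonneg m) h1]
  have y2 : (m * (j + 1) - 1) * D ≤ 2 * m * k + m - 1 - ρ * m ^ 2 + m * (j + 1) := by
    have : 2 * m * k + m - 1 - ρ * m ^ 2 + m * (j + 1) - (m * (j + 1) - 1) * D =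
        m ^ 2 * ((k : ℝ) ^ 2 + k - ρ + (j + 1) * (2 * k + 1 - m * k * (k + 1))) := by
      rw [hDdef]; ring
    nlinarith [mul_nonneg (sq_nonneg m) h2]
  have y3 : D * ((1 - θ) * (m * j - 1) + θ * (m * j + m - 1)) ≤ 2 * m * k + m - 1 - m * t := by
    have e1 : m * t ≤ ρ * m ^ 2 - m * s := by nlinarith
    have e2 := mul_le_mul_of_nonneg_left y1 hθ1
    have e3 := mul_le_mul_of_nonneg_left y2 hθ0
    have e4 : s = j + θ := by rw [hθ]; ring
    rw [e4] at e1
    nlinarith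
  have hWn : (1 - θ) * (m * j - 1) + θ * (m * j + m - 1) ≤ W := by
    refine le_trans ?_ hW
    rw [le_div_iff₀ hD]
    linarith
  have hUn : ((1 - θ) * (m * j + m - 1) + θ * (m * j - 1)) / ((m * j - 1) * (m * j + m - 1)) ≤ U := by
    refine le_trans (le_of_eq ?_) hU
    congr 1
    rw [hθ]; ring
  have hu : 0 < m * j - 1 := by linarith
  have hv : 0 < m * j + m - 1 := by linarith
  have p1 : 0 ≤ (1 - θ) * (m * j - 1) + θ * (m * j + m - 1) := by positivity
  have p2 : 0 ≤ ((1 - θ) * (m * j + m - 1) + θ * (m * j - 1)) / ((m * j - 1) * (m * j + m - 1)) := by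
    positivity
  calc (1 : ℝ) ≤ ((1 - θ) * (m * j + m - 1) + θ * (m * j - 1)) / ((m * j - 1) * (m * j + m - 1)) *
        ((1 - θ) * (m * j - 1) + θ * (m * j + m - 1)) := by
        rw [div_mul_eq_mul_div, le_div_iff₀ hDj, one_mul]
        nlinarith [mul_nonneg (mul_nonneg hθ0 hθ1) (sq_nonneg m)]
    _ ≤ U * W := mul_le_mul hUn hWn p1 (p2.trans hUn)

theorem caseA {m s t U W : ℝ} {r k : ℕ} (hm : 0 < m) (hk1 : 1 ≤ k) (hr : r ≤ k * (k + 1))
    (hk : 1 < m * k) (hV : m * k ^ 2 * (k + 1) ≤ 3 * (k : ℝ) ^ 2 + 2 * k - r)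
    (hs : 1 < m * (⌊s⌋₊ : ℕ)) (hst : s + t ≤ r * m) (hle : s ≤ t)
    (hU : ∀ j : ℕ, 1 < m * j →
      (2 * m * j + m - 1 - m * s) / ((m * j - 1) * (m * j + m - 1)) ≤ U)
    (hW : ∀ j : ℕ, 1 < m * j →
      (2 * m * j + m - 1 - m * t) / ((m * j - 1) * (m * j + m - 1)) ≤ W) :
    1 ≤ U * W := by
  have hkR : (1 : ℝ) ≤ k := by exact_mod_cast hk1
  have hrR : (r : ℝ) ≤ k ^ 2 + k := by
    have : (r : ℝ) ≤ ((k * (k + 1) : ℕ) : ℝ) := by exact_mod_cast hr
    push_cast at this
    linarith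
  have hs0 : 0 < s := by
    by_contra hn
    push Not at hn
    rw [Nat.floor_of_nonpos hn] at hs
    norm_num at hs
  have f0 : 0 ≤ (k : ℝ) ^ 2 + k - r := by linarith
  have fk : 0 ≤ (k : ℝ) ^ 2 + k - r + k * (2 * k + 1 - m * k * (k + 1)) := by nlinarith
  rcases lt_or_ge s k with h | h
  · -- `s < k`
    set j := ⌊s⌋₊ with hj
    have hjs : (j : ℝ) ≤ s := Nat.floor_le hs0.le
    have hsj : s ≤ j + 1 := (Nat.lt_floor_add_one s).le
    have hjk : j + 1 ≤ k := by
      have : (j : ℝ) < k := lt_of_le_of_lt hjs h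
      exact_mod_cast this
    have hjkR : (j : ℝ) + 1 ≤ k := by exact_mod_cast hjk
    have hkpos : (0 : ℝ) < k := by linarith
    refine interp hm hk hs hjs hsj hst (hU j hs) (hW k hk) ?_ ?_
    · -- linear interpolation between `0` and `k`
      have : (k : ℝ) * ((k : ℝ) ^ 2 + k - r + j * (2 * k + 1 - m * k * (k + 1))) =
          (k - j) * ((k : ℝ) ^ 2 + k - r) +
            j * ((k : ℝ) ^ 2 + k - r + k * (2 * k + 1 - m * k * (k + 1))) := by ring
      have h2 : 0 ≤ (k : ℝ) * ((k : ℝ) ^ 2 + k - r + j * (2 * k + 1 - m * k * (k + 1))) := by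
        rw [this]
        exact add_nonneg (mul_nonneg (by linarith) f0) (mul_nonneg (Nat.cast_nonneg _) fk)
      exact nonneg_of_mul_nonneg_right h2 hkpos
    · have : (k : ℝ) * ((k : ℝ) ^ 2 + k - r + (j + 1) * (2 * k + 1 - m * k * (k + 1))) =
          (k - (j + 1)) * ((k : ℝ) ^ 2 + k - r) +
            (j + 1) * ((k : ℝ) ^ 2 + k - r + k * (2 * k + 1 - m * k * (k + 1))) := by ring
      have h2 : 0 ≤ (k : ℝ) * ((k : ℝ) ^ 2 + k - r + (j + 1) * (2 * k + 1 - m * k * (k + 1))) := by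
        rw [this]
        exact add_nonneg (mul_nonneg (by linarith) f0)
          (mul_nonneg (by positivity) fk)
      exact nonneg_of_mul_nonneg_right h2 hkpos
  · -- `k ≤ s ≤ t`
    have hu : 0 < m * k - 1 := by linarith
    have hv : 0 < m * k + m - 1 := by linarith
    set u := m * k - 1 with hudef
    set v := m * k + m - 1 with hvdef
    set θ := s - k with hθ
    set θ' := t - k with hθ'
    have t0 : 0 ≤ θ := by linarith
    have t0' : 0 ≤ θ' := by linarith
    have e1 : u ^ 2 * v ≤ v - m * (θ + θ') := by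
      have e2 : m * (θ + θ') ≤ m * (r * m - 2 * k) := by
        refine mul_le_mul_of_nonneg_left ?_ hm.le
        linarith
      have e3 : v - m * (r * m - 2 * k) - u ^ 2 * v =
          m ^ 2 * (3 * (k : ℝ) ^ 2 + 2 * k - r - m * k ^ 2 * (k + 1)) := by
        rw [hudef, hvdef]; ring
      nlinarith [mul_nonneg (sq_nonneg m) (sub_nonneg.2 hV)]
    have e4 : (u * v) ^ 2 ≤ (v - m * θ) * (v - m * θ') := by
      have e5 : v * (u ^ 2 * v) ≤ v * (v - m * (θ + θ')) := mul_le_mul_of_nonneg_left e1 hv.le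
      nlinarith [mul_nonneg (mul_nonneg hm.le hm.le) (mul_nonneg t0 t0')]
    have g1 : 0 < v - m * θ := by nlinarith [mul_nonneg hm.le t0', mul_pos (pow_pos hu 2) hv]
    have g2 : 0 < v - m * θ' := by nlinarith [mul_nonneg hm.le t0, mul_pos (pow_pos hu 2) hv]
    have hU' := hU k hk
    have hW' := hW k hk
    have a1 : 2 * m * k + m - 1 - m * s = v - m * θ := by rw [hvdef, hθ]; ring
    have a2 : 2 * m * k + m - 1 - m * t = v - m * θ' := by rw [hvdef, hθ']; ring
    rw [a1] at hU'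
    rw [a2] at hW'
    have huv : 0 < u * v := mul_pos hu hv
    calc (1 : ℝ) ≤ (v - m * θ) / (u * v) * ((v - m * θ') / (u * v)) := by
          rw [div_mul_div_comm, le_div_iff₀ (by positivity), one_mul]
          nlinarith
      _ ≤ U * W := mul_le_mul hU' hW' (by positivity) (le_trans (by positivity) hU')

theorem caseB {m s t U W : ℝ} {r k : ℕ} (hm : 0 < m) (hk1 : 1 ≤ k) (hr : k * (k + 1) ≤ r)
    (hk : 1 < m * k) (hV : m * k * (k + 1) ^ 2 ≤ 3 * (k : ℝ) ^ 2 + 4 * k + 1 - r)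
    (ht : 1 < m * (⌊t⌋₊ : ℕ)) (hst : s + t ≤ r * m) (hle : s ≤ t)
    (hU : ∀ j : ℕ, 1 < m * j →
      (2 * m * j + m - 1 - m * s) / ((m * j - 1) * (m * j + m - 1)) ≤ U)
    (hW : ∀ j : ℕ, 1 < m * j →
      (2 * m * j + m - 1 - m * t) / ((m * j - 1) * (m * j + m - 1)) ≤ W) :
    1 ≤ U * W := by
  have hkR : (1 : ℝ) ≤ k := by exact_mod_cast hk1
  have hrR : (k : ℝ) ^ 2 + k ≤ r := by
    have : ((k * (k + 1) : ℕ) : ℝ) ≤ (r : ℝ) := by exact_mod_cast hr
    push_cast at this
    linarith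
  have ht0 : 0 < t := by
    by_contra hn
    push Not at hn
    rw [Nat.floor_of_nonpos hn] at ht
    norm_num at ht
  have fk : 0 ≤ (k : ℝ) ^ 2 + k - r + (k + 1) * (2 * k + 1 - m * k * (k + 1)) := by nlinarith
  have hslope : 0 ≤ 2 * (k : ℝ) + 1 - m * k * (k + 1) := by
    by_contra hn
    push Not at hn
    have : (k + 1 : ℝ) * (2 * k + 1 - m * k * (k + 1)) < 0 :=
      mul_neg_of_pos_of_neg (by positivity) hn
    linarith
  rcases lt_or_ge t (k + 1) with h | h
  · have hu : 0 < m * k - 1 := by linarith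
    have hv : 0 < m * k + m - 1 := by linarith
    set u := m * k - 1 with hudef
    set v := m * k + m - 1 with hvdef
    set η := k + 1 - s with hη
    set η' := k + 1 - t with hη'
    have t0 : 0 ≤ η := by linarith
    have t0' : 0 ≤ η' := by linarith
    have e1 : u * v ^ 2 ≤ u + m * (η + η') := by
      have e2 : m * (2 * k + 2 - r * m) ≤ m * (η + η') := by
        refine mul_le_mul_of_nonneg_left ?_ hm.le
        linarith
      have e3 : u + m * (2 * k + 2 - r * m) - u * v ^ 2 =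
          m ^ 2 * (3 * (k : ℝ) ^ 2 + 4 * k + 1 - r - m * k * (k + 1) ^ 2) := by
        rw [hudef, hvdef]; ring
      nlinarith [mul_nonneg (sq_nonneg m) (sub_nonneg.2 hV)]
    have e4 : (u * v) ^ 2 ≤ (u + m * η) * (u + m * η') := by
      have e5 : u * (u * v ^ 2) ≤ u * (u + m * (η + η')) := mul_le_mul_of_nonneg_left e1 hu.le
      nlinarith [mul_nonneg (mul_nonneg hm.le hm.le) (mul_nonneg t0 t0')]
    have hU' := hU k hk
    have hW' := hW k hk
    have a1 : 2 * m * k + m - 1 - m * s = u + m * η := by rw [hudef, hη]; ring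
    have a2 : 2 * m * k + m - 1 - m * t = u + m * η' := by rw [hudef, hη']; ring
    rw [a1] at hU'
    rw [a2] at hW'
    have huv : 0 < u * v := mul_pos hu hv
    calc (1 : ℝ) ≤ (u + m * η) / (u * v) * ((u + m * η') / (u * v)) := by
          rw [div_mul_div_comm, le_div_iff₀ (by positivity), one_mul]
          nlinarith
      _ ≤ U * W := mul_le_mul hU' hW' (by positivity) (le_trans (by positivity) hU')
  · set j := ⌊t⌋₊ with hj
    have hjs : (j : ℝ) ≤ t := Nat.floor_le ht0.le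
    have hsj : t ≤ j + 1 := (Nat.lt_floor_add_one t).le
    have hjk : k + 1 ≤ j := by
      refine Nat.le_floor ?_
      push_cast
      exact h
    have hjkR : (k : ℝ) + 1 ≤ j := by exact_mod_cast hjk
    rw [mul_comm U W]
    refine interp (ρ := (r : ℝ)) hm hk ht hjs hsj (by rw [add_comm]; exact hst) (hW j ht)
      (hU k hk) ?_ ?_
    · nlinarith [mul_nonneg (sub_nonneg.2 hjkR) hslope]
    · nlinarith [mul_nonneg (sub_nonneg.2 hjkR) hslope]

end Pool.Agent.H109.Frac
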